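import Pool.Agent.Helper45.Eng.General

set_option autoImplicit false

/-!
Question 1 of MP_629dac_al for nilpotent groups of bounded rank.
-/

namespace Pool.Agent.Results.MP_629dac_al.BoundedRank

open Pool.Agent.Helper45.Eng

/-- Question 1 holds, with a uniform bound `F n d r`, for all nilpotent groups all of whose abelian
normal subgroups are `r`-generated. -/
theorem result : ∃ F : ℕ → ℕ → ℕ → ℕ, ∀ (n d r : ℕ) (G : Type) [Group G] [Group.IsNilpotent G]
      (S : Finset G), S.card ≤ d → Subgroup.closure (S : Set G) = ⊤ →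
      (∀ a ∈ S, ∀ x : G, (fun y : G => y⁻¹ * a⁻¹ * y * a)^[n] x = 1) →
      (∀ A : Subgroup G, A.Normal → (∀ a ∈ A, ∀ b ∈ A, a * b = b * a) →
        ∃ T : Finset G, T.card ≤ r ∧ Subgroup.closure (T : Set G) = A) →
      Group.nilpotencyClass G ≤ F n d r := by
  classical
  obtain ⟨F, hF⟩ := general
  refine ⟨fun n d r => F n d r 1, ?_⟩
  intro n d r G _ _ S hd hS hE hA
  obtain ⟨A, hAn, hAc, hAself⟩ := exists_self_centralizing (G := G)
  obtain ⟨T, hT, hTA⟩ := hA A hAn hAc
  let _ : CommGroup A :=
    { (inferInstance : Group A) with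
      mul_comm := fun a b => Subtype.ext (hAc a a.2 b b.2) }
  let ρ : G →* Module.End ℤ (Additive A) :=
    { toFun := fun g =>
        { toFun := fun a => Additive.ofMul (MulAut.conjNormal g (Additive.toMul a) : A)
          map_add' := fun a b => by
            change Additive.ofMul (MulAut.conjNormal g (Additive.toMul a * Additive.toMul b : A)) = _
            rw [map_mul]; rfl
          map_smul' := fun k a => by
            change Additive.ofMul (MulAut.conjNormal g ((Additive.toMul a : A) ^ k)) =
              Additive.ofMul ((MulAut.conjNormal g (Additive.toMul a : A)) ^ k)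
            rw [map_zpow] }
      map_one' := by
        ext a
        change ((MulAut.conjNormal (1 : G) (Additive.toMul a) : A) : G) = _
        simp
      map_mul' := fun g h => by
        ext a
        change ((MulAut.conjNormal (g * h) (Additive.toMul a) : A) : G) = _
        rw [map_mul]; rfl }
  have hkerA : ∀ g ∈ ρ.ker, g ∈ A := by
    intro g hg
    rw [MonoidHom.mem_ker] at hg
    apply hAself
    intro a ha
    have h1 := congrArg (fun f : Module.End ℤ (Additive A) =>
      ((Additive.toMul (f (Additive.ofMul (⟨a, ha⟩ : A))) : A) : G)) hg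
    have h2 : g * a * g⁻¹ = a := by
      have h3 : ((MulAut.conjNormal g (⟨a, ha⟩ : A) : A) : G) = a := h1
      rwa [MulAut.conjNormal_apply] at h3
    calc g * a = (g * a * g⁻¹) * g := by group
      _ = a * g := by rw [h2]
  have hTmem : ∀ t ∈ T, t ∈ A := by
    intro t ht
    rw [← hTA]
    exact Subgroup.subset_closure ht
  let B : Finset (Additive A) := T.attach.image
    (fun t => Additive.ofMul (⟨t.1, hTmem t.1 t.2⟩ : A))
  have hB : B.card ≤ r := by
    refine le_trans Finset.card_image_le ?_
    rw [Finset.card_attach]; exact hT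
  have hspan : Submodule.span ℤ (B : Set (Additive A)) = ⊤ := by
    rw [eq_top_iff]
    intro a _
    have key : ∀ y ∈ Subgroup.closure (T : Set G), ∃ hy : y ∈ A,
        Additive.ofMul (⟨y, hy⟩ : A) ∈ Submodule.span ℤ (B : Set (Additive A)) := by
      intro y hy
      induction hy using Subgroup.closure_induction with
      | mem y hy =>
        refine ⟨hTmem y hy, Submodule.subset_span ?_⟩
        rw [Finset.mem_coe, Finset.mem_image]
        exact ⟨⟨y, hy⟩, Finset.mem_attach _ _, rfl⟩
      | one => exact ⟨A.one_mem, Submodule.zero_mem _⟩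
      | mul a b _ _ h1 h2 =>
        obtain ⟨ha, ha'⟩ := h1
        obtain ⟨hb, hb'⟩ := h2
        exact ⟨A.mul_mem ha hb, Submodule.add_mem _ ha' hb'⟩
      | inv a _ h1 =>
        obtain ⟨ha, ha'⟩ := h1
        exact ⟨A.inv_mem ha, Submodule.neg_mem _ ha'⟩
    obtain ⟨_, h⟩ := key (Additive.toMul a : A) (by rw [hTA]; exact (Additive.toMul a : A).2)
    exact h
  refine (hF n d r 1 ℤ (Additive A) B hB hspan G S hd hS hE ρ ?_).2
  rw [derivedSeries_one, commutator_def, eq_bot_iff, Subgroup.commutator_le]
  intro a _ b _
  rw [Subgroup.mem_bot]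
  apply Subtype.ext
  have h1 := hAc a (hkerA a a.2) b (hkerA b b.2)
  rw [commutatorElement_def]
  change (a : G) * b * (a : G)⁻¹ * (b : G)⁻¹ = 1
  rw [h1]; group

end Pool.Agent.Results.MP_629dac_al.BoundedRank
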