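import Pool.Agent.Helper28.TP.Final3

set_option autoImplicit false

/-!
Question 1 of MP_629dac_al up to torsion of the primes `≤ (n - 1) * max (2 ^ (n - 1)) 8`: torsion-free nilpotent groups, and
nilpotent groups without elements of these prime orders, generated by `d` left `n`-Engel elements have class at most `f n d`.
The excluded primes do not depend on the number `d` of generators.
-/

namespace Pool.Agent.Results.MP_629dac_al.LargePrimes

theorem result : ∃ f : ℕ → ℕ → ℕ, ∀ (n d : ℕ) (G : Type) [Group G] [Group.IsNilpotent G] (S : Finset G),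
    S.card ≤ d → Subgroup.closure (S : Set G) = ⊤ →
    (∀ a ∈ S, ∀ x : G, (fun y : G => y⁻¹ * a⁻¹ * y * a)^[n] x = 1) →
    ∀ g ∈ (⊤ : Subgroup G).lowerCentralSeries (f n d),
      ∃ e : ℕ, 0 < e ∧ (∀ p, p.Prime → p ∣ e → p ≤ (n - 1) * max (2 ^ (n - 1)) 8) ∧ g ^ e = 1 :=
  Pool.Agent.Helper28.TP.final3

end Pool.Agent.Results.MP_629dac_al.LargePrimes
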