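import Pool.Agent.Helper45.Eng.General

set_option autoImplicit false

/-!
Question 1 of MP_629dac_al for groups acting with soluble kernel on finitely generated modules over
commutative rings.
-/

namespace Pool.Agent.Results.MP_629dac_al.LinearModules

/-- Question 1 holds, with a uniform bound `F n d r s`, for all groups `G` generated by `d` left
`n`-Engel elements which act linearly on an `r`-generated module over some commutative ring with
a kernel that is soluble of derived length at most `s`. -/
theorem result : ∃ F : ℕ → ℕ → ℕ → ℕ → ℕ, ∀ (n d r s : ℕ) (R : Type) [CommRing R] (M : Type)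
      [AddCommGroup M] [Module R M] (B : Finset M), B.card ≤ r →
      Submodule.span R (B : Set M) = ⊤ →
      ∀ (G : Type) [Group G] (S : Finset G), S.card ≤ d → Subgroup.closure (S : Set G) = ⊤ →
      (∀ a ∈ S, ∀ x : G, (fun y : G => y⁻¹ * a⁻¹ * y * a)^[n] x = 1) →
      ∀ ρ : G →* Module.End R M, derivedSeries ρ.ker s = ⊥ →
      Group.IsNilpotent G ∧ Group.nilpotencyClass G ≤ F n d r s :=
  Pool.Agent.Helper45.Eng.general

end Pool.Agent.Results.MP_629dac_al.LinearModules
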